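import Pool.Agent.Helper97.CB.St

/-!
# Project CB, module HXA
-/

set_option autoImplicit false

open MeasureTheory Set Filter
open scoped Pointwise

namespace Pool.Agent.Helper24.CB

open Helper97.CB

private lemma l1_hxa (K : Set ℂ) (hK : Convex ℝ K) (s : ℝ) (hs : 0 < s) (u y T : ℂ) (hu : u ∈ K)
    (hy : y ∈ K) (hT : T ∈ K) (him : u.im = y.im) (hlt : s < y.re - u.re) (hTim : u.im < T.im) :
    ∃ w : ℂ, w ∈ K ∧ w + (s : ℂ) ∈ K ∧ u.im < w.im := by
  have hs' : 0 < y.re - u.re := by linarith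
  set p : ℝ := s / (y.re - u.re) with hp
  have hp0 : 0 < p := div_pos hs hs'
  have hp1 : p < 1 := by rw [hp, div_lt_one hs']; exact hlt
  have hps : p * (y.re - u.re) = s := by rw [hp]; field_simp
  have hw1 : p • u + (1 - p) • T ∈ K := hK hu hT hp0.le (by linarith) (by ring)
  have hw2 : p • y + (1 - p) • T ∈ K := hK hy hT hp0.le (by linarith) (by ring)
  refine ⟨p • u + (1 - p) • T, hw1, ?_, ?_⟩
  · have e : p • u + (1 - p) • T + (s : ℂ) = p • y + (1 - p) • T := by
      apply Complex.ext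
      · simp only [Complex.add_re, Complex.real_smul, Complex.mul_re, Complex.ofReal_re,
          Complex.ofReal_im]
        linarith
      · simp only [Complex.add_im, Complex.real_smul, Complex.mul_im, Complex.ofReal_re,
          Complex.ofReal_im]
        rw [him]
        ring
    rw [e]
    exact hw2
  · simp only [Complex.add_im, Complex.real_smul, Complex.mul_im, Complex.ofReal_re,
      Complex.ofReal_im]
    nlinarith

private lemma up_hxa (K : Set ℂ) (hK : Convex ℝ K) (s : ℝ) (hs : 0 < s) (z1 z2 T : ℂ)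
    (h1 : z1 ∈ K) (h1s : z1 + (s : ℂ) ∈ K) (h2 : z2 ∈ K) (h2s : z2 + (s : ℂ) ∈ K) (hT : T ∈ K)
    (h12 : z1.im < z2.im) (h2T : z2.im ≤ T.im)
    (hmax : ∀ w : ℂ, w ∈ K → w + (s : ℂ) ∈ K → w.im ≤ z2.im) :
    ∃ γ c : ℝ, 0 ≤ γ ∧ 0 ≤ c ∧ c ≤ 1 ∧
      (z1 + (s : ℂ)) + ((1 + γ : ℝ) : ℂ) * (z2 - z1) + (c : ℂ) * (-(s : ℂ)) ∈ K ∧
      γ * (z2.im - z1.im) = T.im - z2.im := by
  rcases eq_or_lt_of_le h2T with hE | hlt
  · refine ⟨0, 0, le_rfl, le_rfl, zero_le_one, ?_, by rw [hE]; ring⟩
    have e : (z1 + (s : ℂ)) + ((1 + 0 : ℝ) : ℂ) * (z2 - z1) + ((0 : ℝ) : ℂ) * (-(s : ℂ)) =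
        z2 + (s : ℂ) := by
      push_cast
      ring
    rw [e]
    exact h2s
  · have hD : 0 < z2.im - z1.im := by linarith
    set g : ℝ := (T.im - z1.im) / (z2.im - z1.im) with hg
    have hgD : g * (z2.im - z1.im) = T.im - z1.im := by rw [hg]; field_simp
    have hg1 : 1 < g := by rw [hg, one_lt_div hD]; linarith
    have hg0 : 0 < g := by linarith
    set c : ℝ := (z1.re + s + g * (z2.re - z1.re) - T.re) / s with hc
    have hcs : c * s = z1.re + s + g * (z2.re - z1.re) - T.re := by rw [hc]; field_simp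
    have hTe : T = (z1 + (s : ℂ)) + (g : ℂ) * (z2 - z1) + (c : ℂ) * (-(s : ℂ)) := by
      apply Complex.ext
      · simp only [Complex.add_re, Complex.mul_re, Complex.sub_re, Complex.neg_re, Complex.neg_im,
          Complex.ofReal_re, Complex.ofReal_im, Complex.sub_im]
        linarith
      · simp only [Complex.add_im, Complex.mul_im, Complex.sub_re, Complex.neg_re, Complex.neg_im,
          Complex.ofReal_re, Complex.ofReal_im, Complex.sub_im]
        linarith
    have ht0 : 0 < 1 / g := by positivity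
    have ht1 : 1 / g < 1 := by rw [div_lt_one hg0]; exact hg1
    set t : ℝ := 1 / g with ht
    have htg : t * g = 1 := by rw [ht]; field_simp
    have hTre : T.re = z1.re + s + g * (z2.re - z1.re) - c * s := by linarith
    have hTim : T.im = z1.im + g * (z2.im - z1.im) := by linarith
    refine ⟨g - 1, c, by linarith, ?_, ?_, ?_, ?_⟩
    · by_contra hneg
      have hneg' : c < 0 := not_le.1 hneg
      have hyK : (1 - t) • (z1 + (s : ℂ)) + t • T ∈ K :=
        hK h1s hT (by linarith) ht0.le (by ring)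
      have hyim : ((1 - t) • (z1 + (s : ℂ)) + t • T).im = z2.im := by
        simp only [Complex.add_im, Complex.real_smul, Complex.mul_im, Complex.ofReal_re,
          Complex.ofReal_im, Complex.add_re]
        rw [hTim]
        have : t * (z1.im + g * (z2.im - z1.im)) = t * z1.im + (t * g) * (z2.im - z1.im) := by ring
        rw [this, htg]
        ring
      have hyre : ((1 - t) • (z1 + (s : ℂ)) + t • T).re = z2.re + s - t * c * s := by
        simp only [Complex.add_im, Complex.real_smul, Complex.mul_re, Complex.ofReal_re,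
          Complex.ofReal_im, Complex.add_re]
        rw [hTre]
        have : t * (z1.re + s + g * (z2.re - z1.re) - c * s) =
            t * z1.re + t * s + (t * g) * (z2.re - z1.re) - t * c * s := by ring
        rw [this, htg]
        ring
      obtain ⟨w, hw1, hw2, hw3⟩ := l1_hxa K hK s hs z2 _ T h2 hyK hT hyim.symm
        (by rw [hyre]; have : 0 < t * (-c) * s := by
              apply mul_pos (mul_pos ht0 (by linarith)) hs
            linarith) hlt
      exact absurd (hmax w hw1 hw2) (not_le.2 hw3)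
    · by_contra hneg
      have hneg' : 1 < c := not_le.1 hneg
      have hyK : (1 - t) • z1 + t • T ∈ K :=
        hK h1 hT (by linarith) ht0.le (by ring)
      have hyim : ((1 - t) • z1 + t • T).im = z2.im := by
        simp only [Complex.add_im, Complex.real_smul, Complex.mul_im, Complex.ofReal_re,
          Complex.ofReal_im]
        rw [hTim]
        have : t * (z1.im + g * (z2.im - z1.im)) = t * z1.im + (t * g) * (z2.im - z1.im) := by ring
        rw [this, htg]
        ring
      have hyre : ((1 - t) • z1 + t • T).re = z2.re + t * s * (1 - c) := by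
        simp only [Complex.real_smul, Complex.mul_re, Complex.ofReal_re,
          Complex.ofReal_im, Complex.add_re]
        rw [hTre]
        have : t * (z1.re + s + g * (z2.re - z1.re) - c * s) =
            t * z1.re + t * s + (t * g) * (z2.re - z1.re) - t * c * s := by ring
        rw [this, htg]
        ring
      have h2sim : (z2 + (s : ℂ)).im = z2.im := by simp
      have h2sre : (z2 + (s : ℂ)).re = z2.re + s := by simp
      obtain ⟨w, hw1, hw2, hw3⟩ := l1_hxa K hK s hs _ (z2 + (s : ℂ)) T hyK h2s hT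
        (by rw [hyim, h2sim])
        (by rw [hyre, h2sre]; have : 0 < t * s * (c - 1) := by
              apply mul_pos (mul_pos ht0 hs) (by linarith)
            linarith) (by rw [hyim]; exact hlt)
      rw [hyim] at hw3
      exact absurd (hmax w hw1 hw2) (not_le.2 hw3)
    · have e : ((1 + (g - 1) : ℝ) : ℂ) = (g : ℂ) := by push_cast; ring
      rw [e, ← hTe]
      exact hT
    · linarith

theorem hHXA (h : StWid) : StHexA := by
  intro K hB s hs
  obtain ⟨hK, hKc, hKi⟩ := hB
  obtain ⟨hc0, hW0, hconc, -, hne, -, -⟩ := h K ⟨hK, hKc, hKi⟩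
  have hs0 : 0 < s := hs.1
  have hscl : s ∈ Icc 0 (cmax K) := ⟨hs.1.le, hs.2.le⟩
  -- compactness of the sets `Sh`
  have hcomp : ∀ r : ℝ, IsCompact (Sh K r) := by
    intro r
    have e : Sh K r = K ∩ (fun z : ℂ => z + (r : ℂ)) ⁻¹' K := rfl
    rw [e]
    exact hKc.inter_right (hKc.isClosed.preimage (by fun_prop))
  have hext : ∀ r : ℝ, (Sh K r).Nonempty → ∃ z ∈ Sh K r, ∃ w ∈ Sh K r,
      (∀ u ∈ Sh K r, z.im ≤ u.im ∧ u.im ≤ w.im) ∧ wid K r = w.im - z.im := by
    intro r hr
    obtain ⟨z, hz, hz'⟩ := (hcomp r).exists_isMinOn hr Complex.continuous_im.continuousOn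
    obtain ⟨w, hw, hw'⟩ := (hcomp r).exists_isMaxOn hr Complex.continuous_im.continuousOn
    refine ⟨z, hz, w, hw, fun u hu => ⟨hz' hu, hw' hu⟩, ?_⟩
    unfold wid
    have h1 : IsGreatest (Complex.im '' Sh K r) w.im := by
      refine ⟨⟨w, hw, rfl⟩, ?_⟩
      rintro _ ⟨u, hu, rfl⟩
      exact hw' hu
    have h2 : IsLeast (Complex.im '' Sh K r) z.im := by
      refine ⟨⟨z, hz, rfl⟩, ?_⟩
      rintro _ ⟨u, hu, rfl⟩
      exact hz' hu
    rw [h1.csSup_eq, h2.csInf_eq]
  have hSh0 : Sh K 0 = K := by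
    ext z
    simp [Sh]
  obtain ⟨z1, hz1, z2, hz2, hzz, hws⟩ := hext s (hne s hscl).1
  obtain ⟨B, hBm, T, hTm, hBT, hw0⟩ := hext 0 (by rw [hSh0]; exact hKi.mono interior_subset)
  rw [hSh0] at hBm hTm hBT
  have hD : 0 < wid K s := by
    have h0 : (0 : ℝ) ∈ Icc 0 (cmax K) := ⟨le_rfl, hc0.le⟩
    have h1 : cmax K ∈ Icc 0 (cmax K) := ⟨hc0.le, le_rfl⟩
    have hq0 : 0 < s / cmax K := div_pos hs0 hc0
    have hq1 : s / cmax K < 1 := by rw [div_lt_one hc0]; exact hs.2
    have h2 := hconc.2 h0 h1 (show 0 ≤ 1 - s / cmax K by linarith) hq0.le (by ring)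
    have h3 : (1 - s / cmax K) • (0 : ℝ) + (s / cmax K) • cmax K = s := by
      simp only [smul_eq_mul]
      field_simp
      ring
    rw [h3] at h2
    simp only [smul_eq_mul] at h2
    have h4 := (hne (cmax K) h1).2.1
    have h5 : 0 < (1 - s / cmax K) * wid K 0 := mul_pos (by linarith) hW0
    have h6 : 0 ≤ s / cmax K * wid K (cmax K) := mul_nonneg hq0.le h4
    linarith
  have h12 : z1.im < z2.im := by linarith
  obtain ⟨γ, c, hγ, hc, hc1, hmem, hγe⟩ := up_hxa K hK s hs0 z1 z2 T hz1.1 hz1.2 hz2.1 hz2.2 hTm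
    h12 (hBT z2 hz2.1).2 (fun w hw hws => (hzz w ⟨hw, hws⟩).2)
  -- the lower apex: reflect
  have hK' : Convex ℝ (-K) := hK.neg
  obtain ⟨φ, f, hφ, hf, hf1, hmem', hφe⟩ := up_hxa (-K) hK' s hs0 (-z2 - (s : ℂ)) (-z1 - (s : ℂ))
    (-B) (by rw [Set.mem_neg]; convert hz2.2 using 1; ring)
    (by rw [Set.mem_neg]; convert hz2.1 using 1; ring)
    (by rw [Set.mem_neg]; convert hz1.2 using 1; ring)
    (by rw [Set.mem_neg]; convert hz1.1 using 1; ring)
    (by rw [Set.mem_neg, neg_neg]; exact hBm)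
    (by simp only [Complex.sub_im, Complex.neg_im, Complex.ofReal_im]; linarith)
    (by
      simp only [Complex.sub_im, Complex.neg_im, Complex.ofReal_im]
      have := (hBT z1 hz1.1).1
      linarith)
    (by
      intro w hw hws
      rw [Set.mem_neg] at hw hws
      have h1 : -(w + (s : ℂ)) ∈ Sh K s := ⟨hws, by convert hw using 1; ring⟩
      have h2 := (hzz _ h1).1
      simp only [Complex.sub_im, Complex.neg_im, Complex.ofReal_im, Complex.add_im] at h2 ⊢
      linarith)
  have hcr : cr (z2 - z1) (-(s : ℂ)) = s * (z2.im - z1.im) := by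
    unfold cr
    simp only [Complex.sub_re, Complex.sub_im, Complex.neg_im, Complex.neg_re, Complex.ofReal_im,
      Complex.ofReal_re]
    ring
  refine ⟨z1 + (s : ℂ), z2 - z1, -(s : ℂ), γ, φ, c, 1 - f, ?_, ?_⟩
  · refine ⟨?_, hγ, hφ, ⟨hc, hc1⟩, ⟨by linarith, by linarith⟩, hz1.2, ?_, ?_, ?_, hmem, ?_⟩
    · rw [hcr]
      exact mul_pos hs0 (by linarith)
    · convert hz2.2 using 1; ring
    · convert hz1.1 using 1; ring
    · convert hz2.1 using 1; ring
    · rw [Set.mem_neg] at hmem'
      convert hmem' using 1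
      push_cast
      ring
  · rw [hcr, hws, hw0]
    simp only [Complex.sub_im, Complex.neg_im, Complex.ofReal_im] at hφe
    have h1 : (2 + γ + φ) * (s * (z2.im - z1.im)) = s * (2 * (z2.im - z1.im) +
        γ * (z2.im - z1.im) + φ * (-z1.im - 0 - (-z2.im - 0))) := by ring
    rw [h1, hγe, hφe]
    ring

end Pool.Agent.Helper24.CB
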