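import Pool.Agent.Helper97.CB.St

/-!
# Project CB, module HXB
-/

set_option autoImplicit false

open MeasureTheory Set Filter
open scoped Pointwise

namespace Pool.Agent.Helper24.CB

open Helper97.CB

theorem hHXB (h : StWid) : StHexB := by
  intro K hB s hs
  obtain ⟨hK, hKc, hKi⟩ := hB
  obtain ⟨hc0, hW0, hconc, -, hne, hemp, -⟩ := h K ⟨hK, hKc, hKi⟩
  have hs0 : 0 < s := hs.1
  have hscl : s ∈ Icc 0 (cmax K) := ⟨hs.1.le, hs.2.le⟩
  have hcomp : ∀ r : ℝ, IsCompact (Sh K r) := by
    intro r
    have e : Sh K r = K ∩ (fun z : ℂ => z + (r : ℂ)) ⁻¹' K := rfl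
    rw [e]
    exact hKc.inter_right (hKc.isClosed.preimage (by fun_prop))
  have hext : ∀ r : ℝ, (Sh K r).Nonempty → ∃ z ∈ Sh K r, ∃ w ∈ Sh K r,
      (∀ u ∈ Sh K r, z.im ≤ u.im ∧ u.im ≤ w.im) ∧ wid K r = w.im - z.im := by
    intro r hr
    obtain ⟨z, hz, hz'⟩ := (hcomp r).exists_isMinOn hr Complex.continuous_im.continuousOn
    obtain ⟨w, hw, hw'⟩ := (hcomp r).exists_isMaxOn hr Complex.continuous_im.continuousOn
    refine ⟨z, hz, w, hw, fun u hu => ⟨hz' hu, hw' hu⟩, ?_⟩
    unfold wid
    have h1 : IsGreatest (Complex.im '' Sh K r) w.im := by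
      refine ⟨⟨w, hw, rfl⟩, ?_⟩
      rintro _ ⟨u, hu, rfl⟩
      exact hw' hu
    have h2 : IsLeast (Complex.im '' Sh K r) z.im := by
      refine ⟨⟨z, hz, rfl⟩, ?_⟩
      rintro _ ⟨u, hu, rfl⟩
      exact hz' hu
    rw [h1.csSup_eq, h2.csInf_eq]
  obtain ⟨z1, hz1, z2, hz2, hzz, hws⟩ := hext s (hne s hscl).1
  have h1 : cmax K ∈ Icc 0 (cmax K) := ⟨hc0.le, le_rfl⟩
  have hD : 0 < wid K s := by
    have h0 : (0 : ℝ) ∈ Icc 0 (cmax K) := ⟨le_rfl, hc0.le⟩
    have hq0 : 0 < s / cmax K := div_pos hs0 hc0
    have hq1 : s / cmax K < 1 := by rw [div_lt_one hc0]; exact hs.2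
    have h2 := hconc.2 h0 h1 (show 0 ≤ 1 - s / cmax K by linarith) hq0.le (by ring)
    have h3 : (1 - s / cmax K) • (0 : ℝ) + (s / cmax K) • cmax K = s := by
      simp only [smul_eq_mul]
      field_simp
      ring
    rw [h3] at h2
    simp only [smul_eq_mul] at h2
    have h4 := (hne (cmax K) h1).2.1
    have h5 : 0 < (1 - s / cmax K) * wid K 0 := mul_pos (by linarith) hW0
    have h6 : 0 ≤ s / cmax K * wid K (cmax K) := mul_nonneg hq0.le h4
    linarith
  have h12 : 0 < z2.im - z1.im := by linarith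
  -- a longest chord
  obtain ⟨z0, hz0⟩ := (hne (cmax K) h1).1
  set C : ℝ := cmax K with hC
  -- the horizontal section at the height of `z0`
  have hsec : ∀ w : ℂ, w ∈ K → w.im = z0.im → z0.re ≤ w.re ∧ w.re ≤ z0.re + C := by
    intro w hw him
    constructor
    · by_contra hlt
      have hlt' : w.re < z0.re := not_le.1 hlt
      have h2 := hemp (C + (z0.re - w.re)) (by linarith)
      have h3 : w ∈ Sh K (C + (z0.re - w.re)) := by
        refine ⟨hw, ?_⟩
        have e : w + ((C + (z0.re - w.re) : ℝ) : ℂ) = z0 + (C : ℂ) := by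
          apply Complex.ext
          · simp only [Complex.add_re, Complex.ofReal_re]
            ring
          · simp only [Complex.add_im, Complex.ofReal_im, him]
        rw [e]
        exact hz0.2
      rw [h2] at h3
      exact h3
    · by_contra hlt
      have hlt' : z0.re + C < w.re := not_le.1 hlt
      have h2 := hemp (w.re - z0.re) (by linarith)
      have h3 : z0 ∈ Sh K (w.re - z0.re) := by
        refine ⟨hz0.1, ?_⟩
        have e : z0 + ((w.re - z0.re : ℝ) : ℂ) = w := by
          apply Complex.ext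
          · simp only [Complex.add_re, Complex.ofReal_re]
            ring
          · simp only [Complex.add_im, Complex.ofReal_im, him]
            ring
        rw [e]
        exact hw
      rw [h2] at h3
      exact h3
  -- `z0` is in `Sh K s`
  have hz0s : z0 ∈ Sh K s := by
    refine ⟨hz0.1, ?_⟩
    have hq0 : 0 < s / C := div_pos hs0 hc0
    have hq1 : s / C < 1 := by rw [div_lt_one hc0]; exact hs.2
    have h2 : (1 - s / C) • z0 + (s / C) • (z0 + (C : ℂ)) ∈ K :=
      hK hz0.1 hz0.2 (by linarith) hq0.le (by ring)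
    have e : (1 - s / C) • z0 + (s / C) • (z0 + (C : ℂ)) = z0 + (s : ℂ) := by
      have hqs : s / C * C = s := by field_simp
      apply Complex.ext
      · simp only [Complex.add_re, Complex.real_smul, Complex.mul_re, Complex.ofReal_re,
          Complex.ofReal_im, Complex.add_im]
        linarith
      · simp only [Complex.add_im, Complex.real_smul, Complex.mul_im, Complex.ofReal_re,
          Complex.ofReal_im, Complex.add_re]
        ring
    rw [e] at h2
    exact h2
  obtain ⟨hlo, hhi⟩ := hzz z0 hz0s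
  set c : ℝ := (z0.im - z1.im) / (z2.im - z1.im) with hc
  have hcD : c * (z2.im - z1.im) = z0.im - z1.im := by rw [hc]; field_simp
  have hc00 : 0 ≤ c := div_nonneg (by linarith) h12.le
  have hc1 : c ≤ 1 := by rw [hc, div_le_one h12]; linarith
  -- the two points of the sides at this height
  have hr : (1 - c) • (z1 + (s : ℂ)) + c • (z2 + (s : ℂ)) ∈ K :=
    hK hz1.2 hz2.2 (by linarith) hc00 (by ring)
  have hl : (1 - c) • z1 + c • z2 ∈ K := hK hz1.1 hz2.1 (by linarith) hc00 (by ring)
  have hrim : ((1 - c) • (z1 + (s : ℂ)) + c • (z2 + (s : ℂ))).im = z0.im := by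
    simp only [Complex.add_im, Complex.real_smul, Complex.mul_im, Complex.ofReal_re,
      Complex.ofReal_im, Complex.add_re]
    linarith
  have hrre : ((1 - c) • (z1 + (s : ℂ)) + c • (z2 + (s : ℂ))).re =
      z1.re + c * (z2.re - z1.re) + s := by
    simp only [Complex.add_im, Complex.real_smul, Complex.mul_re, Complex.ofReal_re,
      Complex.ofReal_im, Complex.add_re]
    ring
  have hlim : ((1 - c) • z1 + c • z2).im = z0.im := by
    simp only [Complex.add_im, Complex.real_smul, Complex.mul_im, Complex.ofReal_re,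
      Complex.ofReal_im]
    linarith
  have hlre : ((1 - c) • z1 + c • z2).re = z1.re + c * (z2.re - z1.re) := by
    simp only [Complex.real_smul, Complex.mul_re, Complex.ofReal_re,
      Complex.ofReal_im, Complex.add_re]
    ring
  have hR := (hsec _ hr hrim).2
  have hL := (hsec _ hl hlim).1
  rw [hrre] at hR
  rw [hlre] at hL
  set m : ℝ := z1.re + c * (z2.re - z1.re) with hm
  set γ : ℝ := (z0.re + C - m - s) / s with hγ
  set φ : ℝ := (m - z0.re) / s with hφ
  have hγs : γ * s = z0.re + C - m - s := by rw [hγ]; field_simp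
  have hφs : φ * s = m - z0.re := by rw [hφ]; field_simp
  have hγ0 : 0 ≤ γ := div_nonneg (by linarith) hs0.le
  have hφ0 : 0 ≤ φ := div_nonneg (by linarith) hs0.le
  have hcr : cr (s : ℂ) (z2 - z1) = s * (z2.im - z1.im) := by
    unfold cr
    simp only [Complex.sub_re, Complex.sub_im, Complex.ofReal_im, Complex.ofReal_re]
    ring
  refine ⟨z1, (s : ℂ), z2 - z1, γ, φ, c, c, ?_, ?_⟩
  · refine ⟨?_, hγ0, hφ0, ⟨hc00, hc1⟩, ⟨hc00, hc1⟩, hz1.1, hz1.2, ?_, ?_, ?_, ?_⟩
    · rw [hcr]
      exact mul_pos hs0 h12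
    · convert hz2.1 using 1; ring
    · convert hz2.2 using 1; ring
    · have e : z1 + ((1 + γ : ℝ) : ℂ) * (s : ℂ) + (c : ℂ) * (z2 - z1) = z0 + (C : ℂ) := by
        apply Complex.ext
        · simp only [Complex.add_re, Complex.mul_re, Complex.sub_re, Complex.ofReal_re,
            Complex.ofReal_im, Complex.sub_im]
          linarith
        · simp only [Complex.add_im, Complex.mul_im, Complex.sub_re, Complex.ofReal_re,
            Complex.ofReal_im, Complex.sub_im]
          linarith
      rw [e]
      exact hz0.2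
    · have e : z1 - (φ : ℂ) * (s : ℂ) + (c : ℂ) * (z2 - z1) = z0 := by
        apply Complex.ext
        · simp only [Complex.add_re, Complex.mul_re, Complex.sub_re, Complex.ofReal_re,
            Complex.ofReal_im, Complex.sub_im]
          linarith
        · simp only [Complex.add_im, Complex.mul_im, Complex.sub_re, Complex.ofReal_re,
            Complex.ofReal_im, Complex.sub_im]
          linarith
      rw [e]
      exact hz0.1
  · rw [hcr, hws]
    have h2 : (2 + γ + φ) * (s * (z2.im - z1.im)) =
        (z2.im - z1.im) * (2 * s + γ * s + φ * s) := by ring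
    rw [h2, hγs, hφs]
    ring

end Pool.Agent.Helper24.CB
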