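import Pool.Agent.Helper27.CB.St

/-!
# Project CB (helper27), module PLO

The proof is by a maximum principle for `√(F x * E y) - c * H (√(x y))`, `c > 1`.
-/

set_option autoImplicit false

open MeasureTheory Set Filter Topology
open scoped ENNReal Pointwise

namespace Pool.Agent.Helper24.CB

open Pool.Agent.Helper27.CB

/-- area under the quarter circle -/
private noncomputable def H_plo (u : ℝ) : ℝ := ∫ t in (0 : ℝ)..u, √(1 - t ^ 2)

private lemma cont_plo : Continuous (fun t : ℝ => √(1 - t ^ 2)) := by fun_prop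

private lemma H_deriv_plo (u : ℝ) : HasDerivAt H_plo (√(1 - u ^ 2)) u :=
  intervalIntegral.integral_hasDerivAt_right (cont_plo.intervalIntegrable _ _)
    cont_plo.stronglyMeasurable.stronglyMeasurableAtFilter cont_plo.continuousAt

private lemma H_zero_plo : H_plo 0 = 0 := intervalIntegral.integral_same

private lemma H_cont_plo : Continuous H_plo :=
  continuous_iff_continuousAt.2 fun u => (H_deriv_plo u).continuousAt

private lemma H_mono_plo (u v : ℝ) (huv : u ≤ v) : H_plo u ≤ H_plo v := by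
  have h : H_plo v - H_plo u = ∫ t in u..v, √(1 - t ^ 2) :=
    intervalIntegral.integral_interval_sub_left (cont_plo.intervalIntegrable _ _)
      (cont_plo.intervalIntegrable _ _)
  have h2 : 0 ≤ ∫ t in u..v, √(1 - t ^ 2) :=
    intervalIntegral.integral_nonneg huv fun t _ => Real.sqrt_nonneg _
  linarith

private lemma H_one_plo : H_plo 1 = Real.pi / 4 := by
  have h1 : ∫ t in (-1 : ℝ)..1, √(1 - t ^ 2) = Real.pi / 2 := integral_sqrt_one_sub_sq
  have h2 : ∫ t in (-1 : ℝ)..1, √(1 - t ^ 2) =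
      (∫ t in (-1 : ℝ)..0, √(1 - t ^ 2)) + ∫ t in (0 : ℝ)..1, √(1 - t ^ 2) :=
    (intervalIntegral.integral_add_adjacent_intervals (cont_plo.intervalIntegrable _ _)
      (cont_plo.intervalIntegrable _ _)).symm
  have h3 : ∫ t in (-1 : ℝ)..0, √(1 - t ^ 2) = ∫ t in (0 : ℝ)..1, √(1 - t ^ 2) := by
    have := intervalIntegral.integral_comp_neg (a := (0 : ℝ)) (b := 1)
      (fun t : ℝ => √(1 - t ^ 2))
    simp only [neg_sq, neg_zero] at this
    exact this.symm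
  unfold H_plo
  linarith

/-- one-sided maximum -/
private lemma der_plo (g : ℝ → ℝ) (d x0 : ℝ) (hx0 : 0 < x0) (hd : HasDerivAt g d x0)
    (hmax : ∀ x, 0 ≤ x → x ≤ x0 → g x ≤ g x0) : 0 ≤ d := by
  have h1 : Tendsto (slope g x0) (𝓝[<] x0) (𝓝 d) :=
    (hasDerivAt_iff_tendsto_slope.1 hd).mono_left
      (nhdsWithin_mono _ fun x hx => ne_of_lt hx)
  refine ge_of_tendsto h1 ?_
  have h2 : ∀ᶠ x in 𝓝[<] x0, x ∈ Ioo 0 x0 := Ioo_mem_nhdsLT hx0
  filter_upwards [h2] with x hx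
  rw [slope_def_field]
  exact div_nonneg_of_nonpos (by linarith [hmax x hx.1.le hx.2.le]) (by linarith [hx.2])

/-- facts on the primitive of a positive antitone concave function -/
private lemma prim_plo (a : ℝ) (f : ℝ → ℝ) (hcv : ConcaveOn ℝ (Icc 0 a) f)
    (hat : AntitoneOn f (Icc 0 a)) (ha : 0 < a) (hpos : ∀ x, 0 ≤ x → x < a → 0 < f x) :
    ContinuousOn (fun x => ∫ t in (0 : ℝ)..x, f t) (Icc 0 a) ∧
    (∀ x, 0 < x → x < a → HasDerivAt (fun x => ∫ t in (0 : ℝ)..x, f t) (f x) x ∧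
      0 < ∫ t in (0 : ℝ)..x, f t) := by
  have hat' : AntitoneOn f (uIcc 0 a) := by rw [uIcc_of_le ha.le]; exact hat
  have hint : IntervalIntegrable f volume 0 a := hat'.intervalIntegrable
  have hco : ContinuousOn f (Ioo 0 a) := by
    have := hcv.continuousOn_interior
    rwa [interior_Icc] at this
  constructor
  · have h1 : IntegrableOn f (uIcc 0 a) := by
      rw [uIcc_of_le ha.le]
      exact (intervalIntegrable_iff_integrableOn_Icc_of_le ha.le).1 hint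
    have := intervalIntegral.continuousOn_primitive_interval h1
    rwa [uIcc_of_le ha.le] at this
  · intro x hx0 hxa
    have hix : IntervalIntegrable f volume 0 x :=
      hint.mono_set (by rw [uIcc_of_le ha.le, uIcc_of_le hx0.le]; exact Icc_subset_Icc_right hxa.le)
    refine ⟨?_, ?_⟩
    · exact intervalIntegral.integral_hasDerivAt_right hix
        (hco.stronglyMeasurableAtFilter isOpen_Ioo x ⟨hx0, hxa⟩)
        (hco.continuousAt (Ioo_mem_nhds hx0 hxa))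
    · exact intervalIntegral.intervalIntegral_pos_of_pos_on hix
        (fun t ht => hpos t ht.1.le (ht.2.trans hxa)) hx0

private lemma core_plo (a A : ℝ) (f G : ℝ → ℝ) (ha : 0 < a) (hA : 0 < A)
    (hf1 : ConcaveOn ℝ (Icc 0 a) f) (hf2 : AntitoneOn f (Icc 0 a))
    (hf3 : ∀ x, 0 ≤ x → x < a → 0 < f x)
    (hG1 : ConcaveOn ℝ (Icc 0 A) G) (hG2 : AntitoneOn G (Icc 0 A))
    (hG3 : ∀ x, 0 ≤ x → x < A → 0 < G x)
    (hfG : ∀ x y, 0 ≤ x → x ≤ a → 0 ≤ y → y ≤ A → f x * G y ≤ 1 - x * y)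
    (x1 y1 c : ℝ) (hx1 : 0 < x1) (hx1a : x1 < a) (hy1 : 0 < y1) (hy1A : y1 < A) (hc : 1 < c) :
    √((∫ t in (0 : ℝ)..x1, f t) * ∫ t in (0 : ℝ)..y1, G t) ≤ c * H_plo (√(x1 * y1)) := by
  obtain ⟨hFc, hFd⟩ := prim_plo a f hf1 hf2 ha hf3
  obtain ⟨hEc, hEd⟩ := prim_plo A G hG1 hG2 hA hG3
  set F : ℝ → ℝ := fun x => ∫ t in (0 : ℝ)..x, f t with hF
  set E : ℝ → ℝ := fun x => ∫ t in (0 : ℝ)..x, G t with hE
  have hF0 : F 0 = 0 := intervalIntegral.integral_same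
  have hE0 : E 0 = 0 := intervalIntegral.integral_same
  by_contra hcon
  have hcon' : c * H_plo (√(x1 * y1)) < √(F x1 * E y1) := not_le.1 hcon
  set D : ℝ × ℝ → ℝ := fun p => √(F p.1 * E p.2) - c * H_plo (√(p.1 * p.2)) with hD
  have hScomp : IsCompact (Icc (0 : ℝ) x1 ×ˢ Icc (0 : ℝ) y1) := isCompact_Icc.prod isCompact_Icc
  have hDc : ContinuousOn D (Icc (0 : ℝ) x1 ×ˢ Icc (0 : ℝ) y1) := by
    have h1 : ContinuousOn (fun p : ℝ × ℝ => F p.1) (Icc (0 : ℝ) x1 ×ˢ Icc (0 : ℝ) y1) :=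
      hFc.comp continuous_fst.continuousOn
        (fun p hp => ⟨hp.1.1, hp.1.2.trans hx1a.le⟩)
    have h2 : ContinuousOn (fun p : ℝ × ℝ => E p.2) (Icc (0 : ℝ) x1 ×ˢ Icc (0 : ℝ) y1) :=
      hEc.comp continuous_snd.continuousOn
        (fun p hp => ⟨hp.2.1, hp.2.2.trans hy1A.le⟩)
    have h3 : Continuous (fun p : ℝ × ℝ => c * H_plo (√(p.1 * p.2))) := by
      apply Continuous.mul continuous_const
      exact H_cont_plo.comp (by fun_prop)
    exact ((h1.mul h2).sqrt).sub h3.continuousOn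
  obtain ⟨⟨x0, y0⟩, ⟨hx0, hy0⟩, hmax⟩ := hScomp.exists_isMaxOn
    ⟨(x1, y1), ⟨⟨hx1.le, le_rfl⟩, ⟨hy1.le, le_rfl⟩⟩⟩ hDc
  simp only at hx0 hy0
  have hDpos : 0 < D (x0, y0) := by
    have h1 : D (x1, y1) ≤ D (x0, y0) := hmax ⟨⟨hx1.le, le_rfl⟩, ⟨hy1.le, le_rfl⟩⟩
    have h2 : 0 < D (x1, y1) := by simp only [hD]; linarith
    linarith
  have hx0p : 0 < x0 := by
    rcases eq_or_lt_of_le hx0.1 with h | h
    · exfalso
      rw [← h] at hDpos
      simp only [hD, hF0, zero_mul, Real.sqrt_zero, H_zero_plo, mul_zero, sub_zero,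
        lt_self_iff_false] at hDpos
    · exact h
  have hy0p : 0 < y0 := by
    rcases eq_or_lt_of_le hy0.1 with h | h
    · exfalso
      rw [← h] at hDpos
      simp only [hD, hE0, mul_zero, Real.sqrt_zero, H_zero_plo, sub_zero,
        lt_self_iff_false] at hDpos
    · exact h
  have hx0a : x0 < a := hx0.2.trans_lt hx1a
  have hy0A : y0 < A := hy0.2.trans_lt hy1A
  obtain ⟨hFd0, hFp⟩ := hFd x0 hx0p hx0a
  obtain ⟨hEd0, hEp⟩ := hEd y0 hy0p hy0A
  change HasDerivAt F (f x0) x0 at hFd0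
  change 0 < F x0 at hFp
  change HasDerivAt E (G y0) y0 at hEd0
  change 0 < E y0 at hEp
  have hFE : 0 < F x0 * E y0 := mul_pos hFp hEp
  have hxy : 0 < x0 * y0 := mul_pos hx0p hy0p
  have hsxy : (√(x0 * y0)) ^ 2 = x0 * y0 := Real.sq_sqrt hxy.le
  have hd1 : HasDerivAt (fun x => D (x, y0)) (f x0 * E y0 / (2 * √(F x0 * E y0)) -
      c * (√(1 - x0 * y0) * (y0 / (2 * √(x0 * y0))))) x0 := by
    have h1 : HasDerivAt (fun x => √(F x * E y0)) (f x0 * E y0 / (2 * √(F x0 * E y0))) x0 :=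
      (hFd0.mul_const (E y0)).sqrt hFE.ne'
    have h2 : HasDerivAt (fun x => √(x * y0)) (y0 / (2 * √(x0 * y0))) x0 := by
      have := ((hasDerivAt_id x0).mul_const y0).sqrt hxy.ne'
      simpa using this
    have h3 := (H_deriv_plo (√(x0 * y0))).comp x0 h2
    rw [hsxy] at h3
    exact h1.sub (h3.const_mul c)
  have hd2 : HasDerivAt (fun y => D (x0, y)) (F x0 * G y0 / (2 * √(F x0 * E y0)) -
      c * (√(1 - x0 * y0) * (x0 / (2 * √(x0 * y0))))) y0 := by
    have h1 : HasDerivAt (fun y => √(F x0 * E y)) (F x0 * G y0 / (2 * √(F x0 * E y0))) y0 :=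
      (hEd0.const_mul (F x0)).sqrt hFE.ne'
    have h2 : HasDerivAt (fun y => √(x0 * y)) (x0 / (2 * √(x0 * y0))) y0 := by
      have := ((hasDerivAt_id y0).const_mul x0).sqrt hxy.ne'
      simpa using this
    have h3 := (H_deriv_plo (√(x0 * y0))).comp y0 h2
    rw [hsxy] at h3
    exact h1.sub (h3.const_mul c)
  have hs1 := der_plo _ _ x0 hx0p hd1 (fun x hx hxx =>
    hmax ⟨⟨hx, hxx.trans hx0.2⟩, hy0⟩)
  have hs2 := der_plo _ _ y0 hy0p hd2 (fun y hy hyy =>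
    hmax ⟨hx0, ⟨hy, hyy.trans hy0.2⟩⟩)
  have hfp := hf3 x0 hx0p.le hx0a
  have hGp := hG3 y0 hy0p.le hy0A
  have hle := hfG x0 y0 hx0p.le hx0a.le hy0p.le hy0A.le
  have h1xy : 0 < 1 - x0 * y0 := lt_of_lt_of_le (mul_pos hfp hGp) hle
  set R : ℝ := √(F x0 * E y0) with hR
  set S : ℝ := √(x0 * y0) with hS
  set Q : ℝ := √(1 - x0 * y0) with hQ
  have hRp : 0 < R := Real.sqrt_pos.2 hFE
  have hSp : 0 < S := Real.sqrt_pos.2 hxy
  have hQp : 0 < Q := Real.sqrt_pos.2 h1xy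
  have hR2 : R ^ 2 = F x0 * E y0 := Real.sq_sqrt hFE.le
  have hQ2 : Q ^ 2 = 1 - x0 * y0 := Real.sq_sqrt h1xy.le
  have i1 : c * Q * y0 * R ≤ f x0 * E y0 * S := by
    have h1 : c * (Q * (y0 / (2 * S))) ≤ f x0 * E y0 / (2 * R) := by linarith
    rw [le_div_iff₀ (by positivity)] at h1
    have h2 : c * (Q * (y0 / (2 * S))) * (2 * R) * S = c * Q * y0 * R := by
      field_simp
    have h3 := mul_le_mul_of_nonneg_right h1 hSp.le
    rw [h2] at h3
    exact h3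
  have i2 : c * Q * x0 * R ≤ F x0 * G y0 * S := by
    have h1 : c * (Q * (x0 / (2 * S))) ≤ F x0 * G y0 / (2 * R) := by linarith
    rw [le_div_iff₀ (by positivity)] at h1
    have h2 : c * (Q * (x0 / (2 * S))) * (2 * R) * S = c * Q * x0 * R := by
      field_simp
    have h3 := mul_le_mul_of_nonneg_right h1 hSp.le
    rw [h2] at h3
    exact h3
  have i3 : (c * Q * y0 * R) * (c * Q * x0 * R) ≤ (f x0 * E y0 * S) * (F x0 * G y0 * S) :=
    mul_le_mul i1 i2 (by positivity) (by positivity)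
  have e1 : (c * Q * y0 * R) * (c * Q * x0 * R) =
      c ^ 2 * (1 - x0 * y0) * ((x0 * y0) * (F x0 * E y0)) := by
    rw [← hR2, ← hQ2]; ring
  have e2 : (f x0 * E y0 * S) * (F x0 * G y0 * S) =
      (f x0 * G y0) * ((x0 * y0) * (F x0 * E y0)) := by
    rw [← hsxy]; ring
  rw [e1, e2] at i3
  have i4 : c ^ 2 * (1 - x0 * y0) ≤ f x0 * G y0 :=
    le_of_mul_le_mul_right i3 (mul_pos hxy hFE)
  have i5 : 1 - x0 * y0 < c ^ 2 * (1 - x0 * y0) := by
    have : 1 < c ^ 2 := by nlinarith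
    nlinarith
  linarith

theorem hPLO : StPLO := by
  intro a A f G ha hA hf1 hf2 hf3 hG1 hG2 hG3 hfG
  obtain ⟨hFc, hFd⟩ := prim_plo a f hf1 hf2 ha hf3
  obtain ⟨hEc, hEd⟩ := prim_plo A G hG1 hG2 hA hG3
  have hpi : 0 < Real.pi / 4 := by positivity
  have hkey : ∀ x, 0 < x → x < a → ∀ y, 0 < y → y < A →
      (∫ t in (0 : ℝ)..x, f t) * (∫ t in (0 : ℝ)..y, G t) ≤ (Real.pi / 4) ^ 2 := by
    intro x hx hxa y hy hyA
    have hxy1 : x * y ≤ 1 := by
      have h1 := hfG x y hx.le hxa.le hy.le hyA.le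
      have h2 := mul_pos (hf3 x hx.le hxa) (hG3 y hy.le hyA)
      linarith
    have hH : H_plo (√(x * y)) ≤ Real.pi / 4 := by
      rw [← H_one_plo]
      apply H_mono_plo
      rw [Real.sqrt_le_left zero_le_one, one_pow]
      exact hxy1
    have h3 : √((∫ t in (0 : ℝ)..x, f t) * ∫ t in (0 : ℝ)..y, G t) ≤ Real.pi / 4 := by
      apply le_of_forall_pos_le_add
      intro ε hε
      have hc : 1 < 1 + ε / (Real.pi / 4) := by
        have : 0 < ε / (Real.pi / 4) := div_pos hε hpi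
        linarith
      have h4 := core_plo a A f G ha hA hf1 hf2 hf3 hG1 hG2 hG3 hfG x y _ hx hxa hy hyA hc
      have h5 : (1 + ε / (Real.pi / 4)) * H_plo (√(x * y)) ≤
          (1 + ε / (Real.pi / 4)) * (Real.pi / 4) :=
        mul_le_mul_of_nonneg_left hH (by linarith)
      have h6 : (1 + ε / (Real.pi / 4)) * (Real.pi / 4) = Real.pi / 4 + ε := by
        field_simp
      linarith
    have h7 : 0 ≤ (∫ t in (0 : ℝ)..x, f t) * ∫ t in (0 : ℝ)..y, G t :=
      (mul_pos (hFd x hx hxa).2 (hEd y hy hyA).2).le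
    calc (∫ t in (0 : ℝ)..x, f t) * (∫ t in (0 : ℝ)..y, G t) =
        (√((∫ t in (0 : ℝ)..x, f t) * ∫ t in (0 : ℝ)..y, G t)) ^ 2 := (Real.sq_sqrt h7).symm
      _ ≤ (Real.pi / 4) ^ 2 := pow_le_pow_left₀ (Real.sqrt_nonneg _) h3 2
  -- limits
  have hFlim : Tendsto (fun x => ∫ t in (0 : ℝ)..x, f t) (𝓝[Ioo 0 a] a)
      (𝓝 (∫ t in (0 : ℝ)..a, f t)) :=
    (hFc a ⟨ha.le, le_rfl⟩).mono_left (nhdsWithin_mono _ Ioo_subset_Icc_self)
  have hElim : Tendsto (fun x => ∫ t in (0 : ℝ)..x, G t) (𝓝[Ioo 0 A] A)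
      (𝓝 (∫ t in (0 : ℝ)..A, G t)) :=
    (hEc A ⟨hA.le, le_rfl⟩).mono_left (nhdsWithin_mono _ Ioo_subset_Icc_self)
  have : (𝓝[Ioo 0 a] a).NeBot := right_nhdsWithin_Ioo_neBot ha
  have : (𝓝[Ioo 0 A] A).NeBot := right_nhdsWithin_Ioo_neBot hA
  have hstep : ∀ y, 0 < y → y < A →
      (∫ t in (0 : ℝ)..a, f t) * (∫ t in (0 : ℝ)..y, G t) ≤ (Real.pi / 4) ^ 2 := by
    intro y hy hyA
    refine le_of_tendsto (hFlim.mul_const _) ?_
    filter_upwards [self_mem_nhdsWithin] with x hx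
    exact hkey x hx.1 hx.2 y hy hyA
  refine le_of_tendsto (hElim.const_mul _) ?_
  filter_upwards [self_mem_nhdsWithin] with y hy
  exact hstep y hy.1 hy.2

end Pool.Agent.Helper24.CB
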