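import Pool.Agent.Helper27.CB.St

/-!
# Project CB (helper27), module TRF
-/

set_option autoImplicit false

open MeasureTheory Set Filter Topology
open scoped ENNReal Pointwise

namespace Pool.Agent.Helper24.CB

open Pool.Agent.Helper27.CB

/-- the linear homeomorphism of the coordinate plane and the Euclidean plane -/
private noncomputable def eT_trf : P2 ≃L[ℝ] E2 :=
  (ContinuousLinearEquiv.finTwoArrow ℝ ℝ).symm.trans
    (PiLp.continuousLinearEquiv 2 ℝ (fun _ : Fin 2 => ℝ)).symm

private lemma eT_apply_trf (p : P2) : eT_trf p = (!₂[p.1, p.2] : E2) := rfl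

private lemma eT_mp_trf : MeasurePreserving (eT_trf : P2 → E2) volume volume :=
  (PiLp.volume_preserving_toLp (Fin 2)).comp (volume_preserving_finTwoArrow ℝ).symm

private lemma vol_trf (S : Set E2) : volume (eT_trf ⁻¹' S) = volume S := by
  have h : MeasurePreserving (eT_trf.toHomeomorph.toMeasurableEquiv : P2 ≃ᵐ E2) volume volume :=
    eT_mp_trf
  exact h.measure_preimage_equiv S

private lemma inner_trf (p q : P2) : inner ℝ (eT_trf p) (eT_trf q) = p.1 * q.1 + p.2 * q.2 := by
  rw [eT_apply_trf, eT_apply_trf, PiLp.inner_apply, Fin.sum_univ_two]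
  simp
  ring

/-- rotation by a right angle -/
private def J_trf (z : P2) : P2 := (-z.2, z.1)

private lemma J_mp_trf : MeasurePreserving J_trf (volume : Measure P2) volume := by
  have h1 : MeasurePreserving (Prod.map (fun x : ℝ => -x) (id : ℝ → ℝ))
      ((volume : Measure ℝ).prod (volume : Measure ℝ)) (volume.prod volume) :=
    (Measure.measurePreserving_neg (volume : Measure ℝ)).prod (MeasurePreserving.id volume)
  have h2 : MeasurePreserving (Prod.swap : ℝ × ℝ → ℝ × ℝ)
      ((volume : Measure ℝ).prod (volume : Measure ℝ)) (volume.prod volume) :=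
    Measure.measurePreserving_swap
  exact h1.comp h2

theorem hTRF : StTRF := by
  intro K hK hKc hKi
  have htoP : ∀ S : Set E2, toP S = eT_trf ⁻¹' S := fun S => rfl
  have hsub : toP K - toP K = toP (K - K) := by
    ext p
    rw [htoP, htoP, Set.mem_sub, Set.mem_preimage, Set.mem_sub]
    constructor
    · rintro ⟨x, hx, y, hy, rfl⟩
      exact ⟨eT_trf x, hx, eT_trf y, hy, (map_sub _ _ _).symm⟩
    · rintro ⟨x, hx, y, hy, hxy⟩
      refine ⟨eT_trf.symm x, ?_, eT_trf.symm y, ?_, ?_⟩
      · rw [Set.mem_preimage, ContinuousLinearEquiv.apply_symm_apply]; exact hx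
      · rw [Set.mem_preimage, ContinuousLinearEquiv.apply_symm_apply]; exact hy
      · rw [← map_sub, hxy, ContinuousLinearEquiv.symm_apply_apply]
  have hBd : Bd (toP K) := by
    refine ⟨?_, ?_, ?_⟩
    · rw [htoP]
      exact hK.linear_preimage (eT_trf : P2 →ₗ[ℝ] E2)
    · rw [htoP]
      exact eT_trf.toHomeomorph.isCompact_preimage.2 hKc
    · rw [htoP]
      have h1 : interior (eT_trf ⁻¹' K) = eT_trf ⁻¹' interior K :=
        (eT_trf.toHomeomorph.preimage_interior K).symm
      rw [h1]
      obtain ⟨x, hx⟩ := hKi
      refine ⟨eT_trf.symm x, ?_⟩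
      rw [Set.mem_preimage, ContinuousLinearEquiv.apply_symm_apply]
      exact hx
  have hfin : ∀ S : Set E2, volume S ≠ ⊤ → volume S = ENNReal.ofReal (vl (toP S)) := by
    intro S hS
    unfold vl
    rw [htoP, vol_trf, ENNReal.ofReal_toReal hS]
  have hKK : IsCompact (K - K) := by
    rw [sub_eq_add_neg]
    exact hKc.add hKc.neg
  -- a ball in the difference body
  obtain ⟨x0, hx0⟩ := hKi
  obtain ⟨r, hr, hball⟩ := Metric.isOpen_iff.1 isOpen_interior x0 hx0
  have hx0K : x0 ∈ K := interior_subset hx0
  have hsmall : ∀ u : E2, ‖u‖ < r → u ∈ K - K := by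
    intro u hu
    refine ⟨x0 + u, interior_subset (hball ?_), x0, hx0K, add_sub_cancel_left x0 u⟩
    rw [Metric.mem_ball, dist_eq_norm]
    simpa using hu
  have hpolar : volume (polarBody (K - K)) ≠ ⊤ := by
    have hsubset : polarBody (K - K) ⊆ Metric.closedBall (0 : E2) (2 / r) := by
      intro w hw
      rw [Metric.mem_closedBall, dist_zero_right]
      by_cases hw0 : ‖w‖ = 0
      · rw [hw0]; positivity
      · have hwp : 0 < ‖w‖ := lt_of_le_of_ne (norm_nonneg _) (Ne.symm hw0)
        have h1 : ((r / 2) / ‖w‖) • w ∈ K - K := by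
          apply hsmall
          rw [norm_smul, Real.norm_of_nonneg (by positivity)]
          have : r / 2 / ‖w‖ * ‖w‖ = r / 2 := by field_simp
          rw [this]
          linarith
        have h2 := hw _ h1
        rw [inner_smul_right, real_inner_self_eq_norm_sq] at h2
        have h3 : r / 2 / ‖w‖ * ‖w‖ ^ 2 = r / 2 * ‖w‖ := by field_simp
        rw [h3] at h2
        rw [le_div_iff₀ hr]
        linarith
    exact (lt_of_le_of_lt (measure_mono hsubset) measure_closedBall_lt_top).ne
  refine ⟨hBd, hfin K hKc.measure_lt_top.ne, ?_, ?_, ?_⟩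
  · rw [hsub]
    exact hfin _ hKK.measure_lt_top.ne
  · have hplr : plr (toP K - toP K) = J_trf ⁻¹' toP (polarBody (K - K)) := by
      rw [hsub]
      ext z
      rw [Set.mem_preimage]
      constructor
      · intro hz
        change eT_trf (J_trf z) ∈ polarBody (K - K)
        intro y hy
        have h1 : eT_trf.symm y ∈ toP (K - K) := by
          rw [htoP, Set.mem_preimage, ContinuousLinearEquiv.apply_symm_apply]; exact hy
        have h2 := hz _ h1
        have h3 : inner ℝ (eT_trf (J_trf z)) y = det2 z (eT_trf.symm y) := by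
          rw [← ContinuousLinearEquiv.apply_symm_apply eT_trf y, inner_trf,
            ContinuousLinearEquiv.symm_apply_apply]
          unfold J_trf det2
          ring
        rw [h3]
        exact (le_abs_self _).trans h2
      · intro hz y hy
        have hz' : eT_trf (J_trf z) ∈ polarBody (K - K) := hz
        have h3 : inner ℝ (eT_trf (J_trf z)) (eT_trf y) = det2 z y := by
          rw [inner_trf]
          unfold J_trf det2
          ring
        have hy' : eT_trf y ∈ K - K := hy
        have hyn : -eT_trf y ∈ K - K := by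
          obtain ⟨u, hu, w, hw, huw⟩ := hy'
          refine ⟨w, hw, u, hu, ?_⟩
          change w - u = -eT_trf y
          rw [← huw]
          change w - u = -(u - w)
          abel
        have h4 := hz' _ hy'
        have h5 := hz' _ hyn
        rw [inner_neg_right, h3] at h5
        rw [h3] at h4
        rw [abs_le]
        constructor <;> linarith
    have hclosed : IsClosed (polarBody (K - K)) := by
      have : polarBody (K - K) = ⋂ y ∈ (K - K), {z : E2 | inner ℝ z y ≤ 1} := by
        ext z
        simp [polarBody]
      rw [this]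
      refine isClosed_biInter fun y _ => ?_
      exact isClosed_le (by fun_prop) continuous_const
    have hmeas : MeasurableSet (toP (polarBody (K - K))) := by
      rw [htoP]
      exact (hclosed.preimage eT_trf.continuous).measurableSet
    have hv : vl (plr (toP K - toP K)) = vl (toP (polarBody (K - K))) := by
      unfold vl
      rw [hplr, J_mp_trf.measure_preimage hmeas.nullMeasurableSet]
    rw [hv]
    exact hfin _ hpolar
  · unfold vl
    apply ENNReal.toReal_pos
    · rw [htoP, vol_trf]
      have h1 : 0 < volume (interior K) := isOpen_interior.measure_pos _ ⟨x0, hx0⟩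
      exact (h1.trans_le (measure_mono interior_subset)).ne'
    · rw [htoP, vol_trf]
      exact hKc.measure_lt_top.ne

end Pool.Agent.Helper24.CB
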